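import Pool.Agent.Run7.h979.JR.Iface

/-!
# Pieces CON and CNK (helper979's project JR): connectedness of the graphs of the levels
-/

set_option autoImplicit false

noncomputable section

namespace Run7.h799.JR

open Run7.h979.JR Finset Classical

/-- a function with large fibres as a word of the next level -/
def mk (L : Lv) (M : ℕ) (f : Fin (L.N M) → L.V)
    (h : ∀ v, 4 ≤ (univ.filter (fun j => f j = v)).card) : (L.next M).V :=
  Subtype.mk f h

theorem mk_val (L : Lv) (M : ℕ) (f : Fin (L.N M) → L.V)
    (h : ∀ v, 4 ≤ (univ.filter (fun j => f j = v)).card) : (mk L M f h).1 = f := rfl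

theorem t_CON (hT : S_TOK) : S_CON := by
  intro L M hM hC Z hZ hcl w
  have hmain := hT L.V (L.N M) (by unfold Lv.N; omega) {f | ∃ h, mk L M f h ∈ Z} ?_ ?_ ?_ w.1 w.2
  · obtain ⟨h, hh⟩ := hmain
    exact hh
  · obtain ⟨z, hz⟩ := hZ
    exact ⟨z.1, z.2, hz⟩
  · rintro f ⟨h, -⟩
    exact h
  · rintro f ⟨hf, hfZ⟩ j hj v
    have hn : ∀ b, 4 ≤ (univ.filter (fun i => i ≠ j ∧ f i = b)).card := by
      intro b
      by_cases hb : f j = b
      · have h1 : univ.filter (fun i => i ≠ j ∧ f i = b) =
            (univ.filter (fun i => f i = f j)).erase j := by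
          ext i
          simp only [mem_filter, mem_univ, true_and, mem_erase, hb]
        have h2 : j ∈ univ.filter (fun i => f i = f j) := mem_filter.2 ⟨mem_univ _, rfl⟩
        rw [h1, card_erase_of_mem h2]
        omega
      · refine (hf b).trans (card_le_card fun i hi => ?_)
        have h1 := (mem_filter.1 hi).2
        refine mem_filter.2 ⟨mem_univ _, ?_, h1⟩
        rintro rfl
        exact hb h1
    have hu : ∀ x b, 4 ≤ (univ.filter (fun i => Function.update f j x i = b)).card := by
      intro x b
      refine (hn b).trans (card_le_card fun i hi => ?_)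
      have h1 := (mem_filter.1 hi).2
      refine mem_filter.2 ⟨mem_univ _, ?_⟩
      rw [Function.update_of_ne h1.1]
      exact h1.2
    have hg : ∀ y b, 4 ≤
        (univ.filter (fun i => Function.update (fun k => L.s (f k)) j y i = b)).card := by
      intro y b
      refine (hn (L.s (L.s b))).trans (card_le_card fun i hi => ?_)
      have h1 := (mem_filter.1 hi).2
      refine mem_filter.2 ⟨mem_univ _, ?_⟩
      rw [Function.update_of_ne h1.1]
      show L.s (f i) = b
      rw [h1.2, L.s3]
    have two : ∀ x, mk L M (Function.update f j x) (hu x) ∈ Z → ∀ y x', L.R x y → L.R y x' →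
        mk L M (Function.update f j x') (hu x') ∈ Z := by
      intro x hx y x' hxy hyx
      have h1 : mk L M (Function.update (fun k => L.s (f k)) j y) (hg y) ∈ Z := by
        refine hcl _ hx _ ((L.next_R M _ _).2 fun i => ?_)
        rw [mk_val, mk_val]
        by_cases hij : i = j
        · rw [hij, Function.update_self, Function.update_self]
          exact hxy
        · rw [Function.update_of_ne hij, Function.update_of_ne hij]
          exact L.R_s _
      refine hcl _ h1 _ ((L.next_R M _ _).2 fun i => ?_)
      rw [mk_val, mk_val]
      by_cases hij : i = j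
      · rw [hij, Function.update_self, Function.update_self]
        exact hyx
      · rw [Function.update_of_ne hij, Function.update_of_ne hij]
        exact L.R_symm (L.R_s _)
    have hU := hC {x | mk L M (Function.update f j x) (hu x) ∈ Z} ?_ ?_ v
    · exact ⟨hu v, hU⟩
    · refine ⟨f j, ?_⟩
      have h1 : Function.update f j (f j) = f := Function.update_eq_self _ _
      show mk L M (Function.update f j (f j)) (hu (f j)) ∈ Z
      have h2 : mk L M (Function.update f j (f j)) (hu (f j)) = mk L M f hf := Subtype.ext h1
      rw [h2]
      exact hfZ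
    · intro x hx y hxy
      have h1 : mk L M (Function.update f j (L.s (L.s x))) (hu _) ∈ Z :=
        two x hx (L.s x) _ (L.R_s x) (L.R_s _)
      have h2 : L.R (L.s (L.s x)) x := by
        have := L.R_s (L.s (L.s x))
        rwa [L.s3] at this
      exact two _ h1 x y h2 hxy

theorem t_CNK (hCON : S_CON) : S_CNK := by
  intro k
  induction k with
  | zero =>
    intro Z hZ hcl w
    obtain ⟨v, hv⟩ := hZ
    by_cases h : v = w
    · rw [← h]
      exact hv
    · exact hcl v hv w (fun i _ => h)
  | succ k ih =>
    rw [Lk_succ]
    exact hCON (Lk k) (MM k) (by unfold MM; positivity) ih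

end Run7.h799.JR
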