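import Pool.Agent.Run7.h979.JR.Iface

/-!
# Piece EXT (helper979's project JR): extension to the next level
-/

set_option autoImplicit false

noncomputable section

namespace Run7.h799.JR

open Run7.h979.JR Finset Classical

theorem div_emod (l : ℕ) (q : ℤ) (i : ℕ) (hi : i < l) :
    (q * l + i) / (l : ℤ) = q ∧ (q * l + i) % (l : ℤ) = i := by
  have hl : (0 : ℤ) < l := by omega
  rw [Int.ediv_emod_unique hl]
  refine ⟨by ring, by omega, by omega⟩

theorem exists_split (l : ℕ) (hl : 0 < l) (n : ℤ) : ∃ (q : ℤ) (i : ℕ), i < l ∧ n = q * l + i := by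
  have h0 : (0 : ℤ) < l := by omega
  have h1 : 0 ≤ n % l := Int.emod_nonneg _ h0.ne'
  have h2 : n % l < l := Int.emod_lt_of_pos _ h0
  refine ⟨n / l, (n % l).toNat, by omega, ?_⟩
  rw [Int.toNat_of_nonneg h1, mul_comm]
  exact (Int.mul_ediv_add_emod n l).symm

theorem t_EXT (hH : S_HAL) : S_EXT := by
  intro L M hM hC u v p hu hv hp hne
  have hNp : 0 < L.N M := L.N_pos M
  have hN : (0 : ℤ) < L.N M := by exact_mod_cast hNp
  have hl : (0 : ℤ) < L.len := by exact_mod_cast L.pos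
  choose w hw using hu
  choose b hb using hv
  have hw' : ∀ (t : ℤ) (j : Fin (L.N M)) (i : ℕ), i < L.len →
      u ((t * L.N M + j.1) * L.len + i) = L.lt ((w t).1 j) i :=
    fun t => (sub_iff L M u t (w t)).1 (hw t)
  obtain ⟨J, i0, hi0, hJ⟩ := exists_split L.len L.pos p
  let S : ℤ → Finset (Fin (L.N M)) := fun t =>
    univ.filter (fun j : Fin (L.N M) => |t * (L.N M : ℤ) + (j.1 : ℤ) - J| ≤ 1)
  have memS : ∀ (t : ℤ) (j : Fin (L.N M)), j ∈ S t ↔ |t * (L.N M : ℤ) + (j.1 : ℤ) - J| ≤ 1 := by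
    intro t j
    show j ∈ univ.filter (fun j : Fin (L.N M) => |t * (L.N M : ℤ) + (j.1 : ℤ) - J| ≤ 1) ↔ _
    rw [mem_filter]
    simp only [mem_univ, true_and]
  have hS : ∀ t, (S t).card ≤ 3 := by
    intro t
    have h1 : (S t).image (fun j : Fin (L.N M) => t * (L.N M : ℤ) + (j.1 : ℤ)) ⊆
        Finset.Icc (J - 1) (J + 1) := by
      intro x hx
      obtain ⟨j, hj, rfl⟩ := mem_image.1 hx
      rw [memS, abs_le] at hj
      rw [Finset.mem_Icc]
      omega
    have h2 : Function.Injective (fun j : Fin (L.N M) => t * (L.N M : ℤ) + (j.1 : ℤ)) := by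
      intro a c hac
      have h3 : t * (L.N M : ℤ) + (a.1 : ℤ) = t * (L.N M : ℤ) + (c.1 : ℤ) := hac
      exact Fin.ext (by omega)
    have h3 := card_le_card h1
    rw [card_image_of_injective _ h2, Int.card_Icc] at h3
    omega
  have hz : ∀ t, ∃ z : Fin (L.N M) → L.V, (∀ j, j ∉ S t → L.R ((w t).1 j) (z j)) ∧
      ∀ x, 4 ≤ (univ.filter (fun j => j ∉ S t ∧ z j = x)).card :=
    fun t => hH L M hM hC (w t).1 (w t).2 (S t) (hS t)
  choose z hz1 hz2 using hz
  let f : ℤ → Fin (L.N M) → L.V := fun t j =>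
    if j ∈ S t then b (t * (L.N M : ℤ) + (j.1 : ℤ)) else z t j
  have fpos : ∀ (t : ℤ) (j : Fin (L.N M)), j ∈ S t → f t j = b (t * (L.N M : ℤ) + (j.1 : ℤ)) :=
    fun t j h => if_pos h
  have fneg : ∀ (t : ℤ) (j : Fin (L.N M)), j ∉ S t → f t j = z t j :=
    fun t j h => if_neg h
  have hf4 : ∀ t x, 4 ≤ (univ.filter (fun j => f t j = x)).card := by
    intro t x
    refine (hz2 t x).trans (card_le_card fun j hj => ?_)
    have h1 := (mem_filter.1 hj).2
    refine mem_filter.2 ⟨mem_univ _, ?_⟩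
    rw [fneg t j h1.1]
    exact h1.2
  have hlt : ∀ q : ℤ, (q % (L.N M : ℤ)).toNat < L.N M := by
    intro q
    have h1 : 0 ≤ q % (L.N M : ℤ) := Int.emod_nonneg _ hN.ne'
    have h2 : q % (L.N M : ℤ) < L.N M := Int.emod_lt_of_pos _ hN
    omega
  obtain ⟨v', hv'⟩ : ∃ v' : ℤ → ZMod 3, ∀ n : ℤ, v' n =
      L.lt (f (n / (L.len : ℤ) / (L.N M : ℤ)) ⟨(n / (L.len : ℤ) % (L.N M : ℤ)).toNat, hlt _⟩)
        (n % (L.len : ℤ)).toNat := ⟨_, fun n => rfl⟩
  have hv2 : ∀ (t : ℤ) (j : Fin (L.N M)) (i : ℕ), i < L.len →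
      v' ((t * L.N M + j.1) * L.len + i) = L.lt (f t j) i := by
    intro t j i hi
    rw [hv']
    obtain ⟨h1, h2⟩ := div_emod L.len (t * L.N M + j.1) i hi
    obtain ⟨h3, h4⟩ := div_emod (L.N M) t j.1 j.2
    have h5 : (⟨(((t * L.N M + j.1) * L.len + i) / (L.len : ℤ) % (L.N M : ℤ)).toNat, hlt _⟩ :
        Fin (L.N M)) = j := by
      apply Fin.ext
      show (((t * L.N M + j.1) * L.len + i) / (L.len : ℤ) % (L.N M : ℤ)).toNat = j.1
      rw [h1, h4]
      rfl
    rw [h5, h1, h2, h3]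
    rfl
  have hcase : ∀ n : ℤ, ∃ (t : ℤ) (j : Fin (L.N M)) (i : ℕ), i < L.len ∧
      n = (t * L.N M + j.1) * L.len + i := by
    intro n
    obtain ⟨q, i, hi, hn⟩ := exists_split L.len L.pos n
    obtain ⟨t, j, hj, hq⟩ := exists_split (L.N M) hNp q
    refine ⟨t, ⟨j, hj⟩, i, hi, ?_⟩
    rw [hn, hq]
  have clA : ∀ (t : ℤ) (j : Fin (L.N M)) (i : ℕ), i < L.len → j ∈ S t →
      v' ((t * L.N M + j.1) * L.len + i) = v ((t * L.N M + j.1) * L.len + i) := by
    intro t j i hi hj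
    rw [hv2 t j i hi, hb _ i hi, fpos t j hj]
  have clC : ∀ n : ℤ, |n - p| ≤ L.len → v' n = v n := by
    intro n hn
    obtain ⟨t, j, i, hi, rfl⟩ := hcase n
    refine clA t j i hi ((memS t j).2 ?_)
    generalize t * (L.N M : ℤ) + (j.1 : ℤ) = q at hn
    rw [hJ, abs_le] at hn
    obtain ⟨hn1, hn2⟩ := hn
    have hi' : (i : ℤ) < L.len := by exact_mod_cast hi
    have hi0' : (i0 : ℤ) < L.len := by exact_mod_cast hi0
    have hi'' : (0 : ℤ) ≤ i := by positivity
    have hi0'' : (0 : ℤ) ≤ i0 := by positivity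
    rw [abs_le]
    constructor
    · by_contra h
      have h1 : q - J ≤ -2 := by omega
      have h2 : (q - J) * L.len ≤ -2 * L.len := mul_le_mul_of_nonneg_right h1 hl.le
      have h3 : (q - J) * L.len = q * L.len - J * L.len := by ring
      omega
    · by_contra h
      have h1 : 2 ≤ q - J := by omega
      have h2 : 2 * (L.len : ℤ) ≤ (q - J) * L.len := mul_le_mul_of_nonneg_right h1 hl.le
      have h3 : (q - J) * L.len = q * L.len - J * L.len := by ring
      omega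
  refine ⟨v', ?_, ?_, ?_, clC⟩
  · intro t
    exact ⟨Subtype.mk (f t) (hf4 t), (sub_iff L M v' t _).2 (hv2 t)⟩
  · rw [clC p (by rw [sub_self, abs_zero]; exact hl.le), hp]
  · intro n hn
    obtain ⟨t, j, i, hi, rfl⟩ := hcase n
    by_cases hj : j ∈ S t
    · rw [clA t j i hi hj]
      exact hne _ hn
    · rw [hv2 t j i hi, hw' t j i hi, fneg t j hj]
      exact (hz1 t j hj i hi).symm

end Run7.h799.JR
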