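import Pool.Agent.Run7.h979.JR.Iface

/-!
# Piece TOK (helper979's project JR): functions with large fibres are connected by single changes
-/

set_option autoImplicit false

noncomputable section

namespace Run7.h799.JR

open Run7.h979.JR Finset Classical

/-- changing one value to `a` makes the class of `a` larger -/
theorem cls {V : Type} {N : ℕ} (f : Fin N → V) (j : Fin N) (a : V)
    (h : 4 ≤ (univ.filter (fun k => f k = a)).card) (hja : f j ≠ a) :
    4 < (univ.filter (fun k => Function.update f j a k = a)).card := by
  have h1 : insert j (univ.filter (fun k => f k = a)) ⊆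
      univ.filter (fun k => Function.update f j a k = a) := by
    intro k hk
    rw [mem_filter]
    refine ⟨mem_univ _, ?_⟩
    by_cases hkj : k = j
    · rw [hkj, Function.update_self]
    · rw [Function.update_of_ne hkj]
      rcases mem_insert.1 hk with h2 | h2
      · exact absurd h2 hkj
      · exact (mem_filter.1 h2).2
  have h2 : j ∉ univ.filter (fun k => f k = a) := fun h3 => hja (mem_filter.1 h3).2
  have h3 := card_le_card h1
  rw [card_insert_of_notMem h2] at h3
  omega

theorem t_TOK : S_TOK := by
  intro V _ N hN Z hZ h4 hcl g hg
  obtain ⟨f, hfZ, hmax⟩ := Set.exists_max_image Z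
    (fun f : Fin N → V => (univ.filter (fun i => f i = g i)).card) (Set.toFinite Z) hZ
  have key : ∀ f' ∈ Z, (∀ i, f i = g i → f' i = g i) → ∀ i, f i ≠ g i → f' i ≠ g i := by
    intro f' hf' h1 i hi hi'
    have h2 : univ.filter (fun i => f i = g i) ⊂ univ.filter (fun i => f' i = g i) := by
      rw [Finset.ssubset_iff_of_subset]
      · exact ⟨i, mem_filter.2 ⟨mem_univ _, hi'⟩, fun h => hi (mem_filter.1 h).2⟩
      · intro k hk
        exact mem_filter.2 ⟨mem_univ _, h1 k (mem_filter.1 hk).2⟩
    have h3 := card_lt_card h2
    have h4 := hmax f' hf'
    exact absurd h3 (not_lt.2 h4)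
  have hfg : f = g := by
    by_contra hne
    obtain ⟨i, hi⟩ := Function.ne_iff.1 hne
    by_cases hA : ∃ j, f j ≠ g j ∧ 4 < (univ.filter (fun i => f i = f j)).card
    · obtain ⟨j, hj, hj4⟩ := hA
      refine key _ (hcl f hfZ j hj4 (g j)) ?_ j hj (Function.update_self _ _ _)
      intro k hk
      by_cases hkj : k = j
      · rw [hkj, Function.update_self]
      · rw [Function.update_of_ne hkj, hk]
    · have hB : ∀ j, f j ≠ g j → (univ.filter (fun i => f i = f j)).card ≤ 4 := by
        intro j hj
        by_contra h
        exact hA ⟨j, hj, not_le.1 h⟩
      have hle : ∀ b ∈ (univ : Finset V), (univ.filter (fun i => f i = b)).card ≤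
          (univ.filter (fun i => g i = b)).card := by
        intro b _
        by_cases h5 : (univ.filter (fun i => f i = b)).card ≤ 4
        · exact h5.trans (hg b)
        · refine card_le_card fun k hk => ?_
          have hk' : f k = b := (mem_filter.1 hk).2
          refine mem_filter.2 ⟨mem_univ _, ?_⟩
          by_contra hgk
          have h6 := hB k (by rw [hk']; exact fun h => hgk h.symm)
          rw [hk'] at h6
          exact h5 h6
      have hsum : ∑ b : V, (univ.filter (fun i => f i = b)).card =
          ∑ b : V, (univ.filter (fun i => g i = b)).card := by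
        rw [← card_eq_sum_card_fiberwise (f := f) (s := univ) (t := univ)
            (fun _ _ => mem_coe.2 (mem_univ _)),
          ← card_eq_sum_card_fiberwise (f := g) (s := univ) (t := univ)
            (fun _ _ => mem_coe.2 (mem_univ _))]
      have heq := (sum_eq_sum_iff_of_le hle).1 hsum
      obtain ⟨i', hi'1, hi'2⟩ : ∃ i', f i' = g i ∧ g i' ≠ g i := by
        by_contra hno
        have h1 : univ.filter (fun k => f k = g i) ⊆ univ.filter (fun k => g k = g i) := by
          intro k hk
          refine mem_filter.2 ⟨mem_univ _, ?_⟩
          by_contra h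
          exact hno ⟨k, (mem_filter.1 hk).2, h⟩
        have h2 := eq_of_subset_of_card_le h1 (heq (g i) (mem_univ _)).ge
        have h3 : i ∈ univ.filter (fun k => f k = g i) := by
          rw [h2]
          exact mem_filter.2 ⟨mem_univ _, rfl⟩
        exact hi (mem_filter.1 h3).2
      obtain ⟨y, -, hy⟩ := exists_lt_card_fiber_of_mul_lt_card_of_maps_to
        (s := (univ : Finset (Fin N))) (t := (univ : Finset V)) (f := f) (n := 4)
        (fun _ _ => mem_univ _) (by rw [card_univ, card_univ, Fintype.card_fin]; omega)
      obtain ⟨j, hj, hji, hji'⟩ : ∃ j, f j = y ∧ j ≠ i ∧ j ≠ i' := by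
        by_contra hno
        have h1 : univ.filter (fun k => f k = y) ⊆ {i, i'} := by
          intro k hk
          by_contra h
          rw [mem_insert, mem_singleton, not_or] at h
          exact hno ⟨k, (mem_filter.1 hk).2, h.1, h.2⟩
        have h2 := card_le_card h1
        have h3 : ({i, i'} : Finset (Fin N)).card ≤ 2 := card_le_two
        omega
      have hab : f i ≠ g i := hi
      have hii' : i' ≠ i := by
        intro h
        rw [h] at hi'1
        exact hi hi'1
      -- f1
      have hf1 : Function.update f j (f i) ∈ Z := hcl f hfZ j (by rw [hj]; exact hy) _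
      have e1i : Function.update f j (f i) i = f i := Function.update_of_ne (Ne.symm hji) _ _
      have c1 : 4 < (univ.filter (fun k => Function.update f j (f i) k =
          Function.update f j (f i) i)).card := by
        rw [e1i]
        by_cases h : f j = f i
        · have h1 : Function.update f j (f i) = f := by
            rw [← h]
            exact Function.update_eq_self _ _
          rw [h1, ← h, hj]
          exact hy
        · exact cls f j (f i) (h4 f hfZ _) h
      generalize hF1 : Function.update f j (f i) = f1 at hf1 e1i c1
      have e1j : f1 j = f i := by rw [← hF1, Function.update_self]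
      have e1i' : f1 i' = g i := by rw [← hF1, Function.update_of_ne (Ne.symm hji'), hi'1]
      -- f2
      have hf2 : Function.update f1 i (g i) ∈ Z := hcl f1 hf1 i c1 _
      have c2 : 4 < (univ.filter (fun k => Function.update f1 i (g i) k = g i)).card :=
        cls f1 i (g i) (h4 f1 hf1 _) (by rw [e1i]; exact hi)
      generalize hF2 : Function.update f1 i (g i) = f2 at hf2 c2
      have e2i' : f2 i' = g i := by rw [← hF2, Function.update_of_ne hii', e1i']
      have e2i : f2 i = g i := by rw [← hF2, Function.update_self]
      have e2j : f2 j = f i := by rw [← hF2, Function.update_of_ne hji, e1j]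
      -- f3
      have hf3 : Function.update f2 i' (f i) ∈ Z := hcl f2 hf2 i' (by rw [e2i']; exact c2) _
      have c3 : 4 < (univ.filter (fun k => Function.update f2 i' (f i) k = f i)).card :=
        cls f2 i' (f i) (h4 f2 hf2 _) (by rw [e2i']; exact Ne.symm hi)
      generalize hF3 : Function.update f2 i' (f i) = f3 at hf3 c3
      have e3j : f3 j = f i := by rw [← hF3, Function.update_of_ne hji', e2j]
      have e3i : f3 i = g i := by rw [← hF3, Function.update_of_ne (Ne.symm hii'), e2i]
      -- f4
      have hf4 : Function.update f3 j (f j) ∈ Z := hcl f3 hf3 j (by rw [e3j]; exact c3) _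
      refine key _ hf4 ?_ i hi (by rw [Function.update_of_ne (Ne.symm hji), e3i])
      intro k hk
      by_cases hkj : k = j
      · rw [hkj, Function.update_self, ← hkj, hk]
      · have hki : k ≠ i := by
          intro h
          rw [h] at hk
          exact hi hk
        have hki' : k ≠ i' := by
          intro h
          rw [h, hi'1] at hk
          exact hi'2 hk.symm
        rw [Function.update_of_ne hkj, ← hF3, Function.update_of_ne hki', ← hF2,
          Function.update_of_ne hki, ← hF1, Function.update_of_ne hkj, hk]
  rw [← hfg]
  exact hfZ

end Run7.h799.JR
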